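import Pool.Agent.W9.PL.Defs

/-!
# PL-MET: concave functions of the distance are squared Euclidean distances
-/

open Finset

namespace Pool.Agent.W363.PL

/-- number of windows separating two points -/
theorem cnt (q N : ℕ) (hN : N ≤ q) (x y : Fin q) :
    ∑ t ∈ Ico (-(q : ℤ)) q, ((if t ∈ Ioc ((x : ℤ) - N) x then (1 : ℝ) else 0) -
      (if t ∈ Ioc ((y : ℤ) - N) y then (1 : ℝ) else 0)) ^ 2 =
      2 * (min ((x : ℤ) - (y : ℤ)).natAbs N : ℕ) := by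
  have hx := x.2
  have hy := y.2
  have e : ∀ t : ℤ, ((if t ∈ Ioc ((x : ℤ) - N) x then (1 : ℝ) else 0) -
      (if t ∈ Ioc ((y : ℤ) - N) y then (1 : ℝ) else 0)) ^ 2 =
      (if t ∈ Ioc ((x : ℤ) - N) x then (1 : ℝ) else 0) +
      (if t ∈ Ioc ((y : ℤ) - N) y then (1 : ℝ) else 0) -
      2 * (if t ∈ Ioc (max ((x : ℤ) - N) ((y : ℤ) - N)) (min (x : ℤ) y) then (1 : ℝ) else 0) := by
    intro t
    have h : t ∈ Ioc (max ((x : ℤ) - N) ((y : ℤ) - N)) (min (x : ℤ) y) ↔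
        t ∈ Ioc ((x : ℤ) - N) x ∧ t ∈ Ioc ((y : ℤ) - N) y := by
      simp only [mem_Ioc, max_lt_iff, le_min_iff]
      tauto
    by_cases h1 : t ∈ Ioc ((x : ℤ) - N) x <;> by_cases h2 : t ∈ Ioc ((y : ℤ) - N) y <;>
      simp only [h, h1, h2, if_true, if_false, and_self, and_true, and_false] <;> norm_num
  have c : ∀ a b : ℤ, -(q : ℤ) ≤ a + 1 → b < q →
      ∑ t ∈ Ico (-(q : ℤ)) q, (if t ∈ Ioc a b then (1 : ℝ) else 0) = ((b - a).toNat : ℝ) := by
    intro a b ha hb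
    rw [Finset.sum_ite_mem, Finset.sum_const, nsmul_eq_mul, mul_one]
    have : Ico (-(q : ℤ)) q ∩ Ioc a b = Ioc a b := by
      ext t
      simp only [mem_inter, mem_Ico, mem_Ioc]
      omega
    rw [this, Int.card_Ioc]
  rw [Finset.sum_congr rfl fun t _ => e t, Finset.sum_sub_distrib, Finset.sum_add_distrib,
    ← Finset.mul_sum, c _ _ (by omega) (by omega), c _ _ (by omega) (by omega),
    c _ _ (by omega) (by omega)]
  have : (((x : ℤ) - ((x : ℤ) - N)).toNat + ((y : ℤ) - ((y : ℤ) - N)).toNat : ℕ) =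
      2 * (min (x : ℤ) y - max ((x : ℤ) - N) ((y : ℤ) - N)).toNat +
        2 * (min ((x : ℤ) - (y : ℤ)).natAbs N : ℕ) := by
    omega
  have h2 := congrArg (fun n : ℕ => (n : ℝ)) this
  simp only [Nat.cast_add, Nat.cast_mul, Nat.cast_ofNat] at h2
  linarith

theorem abel (D : ℕ → ℝ) (j n : ℕ) :
    ∑ a ∈ range n, (D a - D (a + 1)) * (min j (a + 1) : ℕ) + D n * (min j n : ℕ) =
      ∑ a ∈ range n, D a * (((min j (a + 1) : ℕ) : ℝ) - (min j a : ℕ)) := by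
  induction n with
  | zero => simp
  | succ n ih =>
    rw [Finset.sum_range_succ, Finset.sum_range_succ, ← ih]
    ring

theorem tele (ψ : ℕ → ℝ) (j n : ℕ) :
    ∑ a ∈ range n, (ψ (a + 1) - ψ a) * (((min j (a + 1) : ℕ) : ℝ) - (min j a : ℕ)) =
      ψ (min j n) - ψ 0 := by
  induction n with
  | zero => simp
  | succ n ih =>
    rw [Finset.sum_range_succ, ih]
    rcases Nat.lt_or_ge n j with h | h
    · rw [min_eq_right (by omega : n + 1 ≤ j), min_eq_right (by omega : n ≤ j)]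
      push_cast
      ring
    · rw [min_eq_left (by omega : j ≤ n + 1), min_eq_left (by omega : j ≤ n)]
      ring

theorem met : Pool.Agent.W9.PL.S_met := by
  intro q ψ h0 hmono hconc
  set D : ℕ → ℝ := fun a => if a < q then ψ (a + 1) - ψ a else 0 with hD
  have hw : ∀ a, 0 ≤ D a - D (a + 1) := by
    intro a
    simp only [hD]
    have h1 := hmono a
    have h2 := hconc a
    split_ifs with h3 h4 h4
    · linarith
    · linarith
    · omega
    · norm_num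
  refine ⟨Fin q × (Ico (-(q : ℤ)) q), inferInstance, fun i x =>
    Real.sqrt ((D i.1 - D (i.1 + 1)) / 2) *
      (if (i.2 : ℤ) ∈ Ioc ((x : ℤ) - ((i.1 + 1 : ℕ) : ℤ)) x then (1 : ℝ) else 0), ?_⟩
  intro x y
  have hx := x.2
  have hy := y.2
  rw [Fintype.sum_prod_type]
  have e1 : ∀ a : Fin q, ∑ t : (Ico (-(q : ℤ)) q),
      ((Real.sqrt ((D a - D (a + 1)) / 2) *
      (if (t : ℤ) ∈ Ioc ((x : ℤ) - ((a + 1 : ℕ) : ℤ)) x then (1 : ℝ) else 0)) -
      (Real.sqrt ((D a - D (a + 1)) / 2) *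
      (if (t : ℤ) ∈ Ioc ((y : ℤ) - ((a + 1 : ℕ) : ℤ)) y then (1 : ℝ) else 0))) ^ 2 =
      (D a - D (a + 1)) * (min ((x : ℤ) - (y : ℤ)).natAbs (a + 1) : ℕ) := by
    intro a
    have h1 := cnt q (a + 1) (by have := a.2; omega) x y
    have h2 := Finset.sum_coe_sort (Ico (-(q : ℤ)) q) (fun t : ℤ =>
      ((if t ∈ Ioc ((x : ℤ) - ((a + 1 : ℕ) : ℤ)) x then (1 : ℝ) else 0) -
      (if t ∈ Ioc ((y : ℤ) - ((a + 1 : ℕ) : ℤ)) y then (1 : ℝ) else 0)) ^ 2)
    rw [h1] at h2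
    have h3 : ∀ t : (Ico (-(q : ℤ)) q), ((Real.sqrt ((D a - D (a + 1)) / 2) *
      (if (t : ℤ) ∈ Ioc ((x : ℤ) - ((a + 1 : ℕ) : ℤ)) x then (1 : ℝ) else 0)) -
      (Real.sqrt ((D a - D (a + 1)) / 2) *
      (if (t : ℤ) ∈ Ioc ((y : ℤ) - ((a + 1 : ℕ) : ℤ)) y then (1 : ℝ) else 0))) ^ 2 =
      ((D a - D (a + 1)) / 2) *
      ((if (t : ℤ) ∈ Ioc ((x : ℤ) - ((a + 1 : ℕ) : ℤ)) x then (1 : ℝ) else 0) -
      (if (t : ℤ) ∈ Ioc ((y : ℤ) - ((a + 1 : ℕ) : ℤ)) y then (1 : ℝ) else 0)) ^ 2 := by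
      intro t
      rw [← mul_sub, mul_pow, Real.sq_sqrt (by have := hw a; linarith)]
    rw [Finset.sum_congr rfl fun t _ => h3 t, ← Finset.mul_sum, h2]
    ring
  refine (Finset.sum_congr rfl fun a _ => e1 a).trans ?_
  have hj : ((x : ℤ) - (y : ℤ)).natAbs ≤ q := by omega
  have h3 := abel D ((x : ℤ) - (y : ℤ)).natAbs q
  have h4 : D q = 0 := by simp [hD]
  rw [h4, zero_mul, add_zero] at h3
  rw [Fin.sum_univ_eq_sum_range
    (fun a => (D a - D (a + 1)) * (min ((x : ℤ) - (y : ℤ)).natAbs (a + 1) : ℕ)) q, h3]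
  have h5 := tele ψ ((x : ℤ) - (y : ℤ)).natAbs q
  rw [h0, sub_zero, min_eq_left hj] at h5
  rw [← h5]
  refine Finset.sum_congr rfl fun a ha => ?_
  rw [hD]
  simp only [Finset.mem_range.mp ha, if_true]

end Pool.Agent.W363.PL
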